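import Pool.Agent.U503.EA.Stm
import Pool.Agent.U503.VS.All

/-! Project EA, package ASM. -/

set_option autoImplicit false

namespace Pool.Agent.U390.EA

open Finset Function Pool.Agent.U503.VS Pool.Agent.U503.EA

/-- transport of a decomposition -/
theorem dec_congr {M M' ι ι' : Type} [AddCommGroup M] [AddCommGroup M'] [Fintype ι] [Fintype ι']
    {I : ι → M} {J : ι' → M'} (e : M ≃+ M') (σ : ι ≃ ι') (h : ∀ i, J (σ i) = e (I i))
    (H : Dec I) : Dec J := by
  obtain ⟨L, hL, hT, hE⟩ := H
  refine ⟨L.map (fun f w => e (f (e.symm w))), ?_, ?_, ?_⟩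
  · rw [List.length_map, hL]
    exact Fintype.card_congr σ
  · intro κ hκ
    obtain ⟨f, hf, rfl⟩ := List.mem_map.1 hκ
    refine Trans.conj e.symm.toEquiv (hT f hf) ?_
    intro w
    show e.symm (e (f (e.symm w))) = f (e.symm w)
    rw [e.symm_apply_apply]
  · intro w
    obtain ⟨v, rfl⟩ := e.surjective w
    have h1 : (((L.map (fun f w => e (f (e.symm w)))).map (fun κ => κ (e v)) : List M') :
        Multiset M') = (((L.map (fun κ => κ v) : List M) : Multiset M)).map e := by
      rw [Multiset.map_coe, List.map_map, List.map_map]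
      congr 2
      funext f
      simp
    rw [h1, hE v, ← Finset.map_univ_equiv σ, Finset.map_val, Multiset.map_map, Multiset.map_map]
    congr 1
    funext i
    simp only [comp_apply, Equiv.coe_toEmbedding]
    rw [map_add, h]

/-- the standard torus -/
theorem dec_std {p : ℕ} (hp : p.Prime) (hp5 : 5 ≤ p) {t : ℕ} (ht : 1 ≤ t) :
    Dec (fun i : Fin t => (Pi.single i 1 : Fin t → ZMod p)) := by
  haveI : NeZero p := ⟨hp.ne_zero⟩
  obtain ⟨L, hL, hT, hE, -⟩ := (hd_all hp hp5 t ht).ex
  refine ⟨L, by rw [hL, Fintype.card_fin], hT, fun v => ?_⟩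
  rw [hE v]
  rfl

theorem card_pi {p : ℕ} (hp : p.Prime) (t : ℕ) : Nat.card (Fin t → ZMod p) = p ^ t := by
  haveI : NeZero p := ⟨hp.ne_zero⟩
  rw [Nat.card_eq_fintype_card, Fintype.card_fun, ZMod.card, Fintype.card_fin]

/-- indices of a product -/
def ix {a b c : ℕ} (hc : b + a = c) : Fin a ⊕ Fin b ≃ Fin c :=
  (Equiv.sumComm _ _).trans (finSumFinEquiv.trans (finCongr hc))

theorem ix_inr {a b c : ℕ} (hc : b + a = c) (j : Fin b) : (ix hc (Sum.inr j) : ℕ) = j := by
  simp [ix]

/-- the vectors of a product -/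
def vx (p : ℕ) {a b c : ℕ} (hc : b + a = c) :
    (Fin a → ZMod p) × (Fin b → ZMod p) ≃+ (Fin c → ZMod p) where
  toFun v := fun k => Sum.elim v.1 v.2 ((ix hc).symm k)
  invFun f := (fun i => f (ix hc (Sum.inl i)), fun j => f (ix hc (Sum.inr j)))
  left_inv v := by
    refine Prod.ext ?_ ?_
    · funext i
      simp
    · funext i
      simp
  right_inv f := by
    funext k
    obtain ⟨x, rfl⟩ := (ix hc).surjective k
    rcases x with x | x <;> simp
  map_add' v w := by
    funext k
    obtain ⟨x, rfl⟩ := (ix hc).surjective k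
    rcases x with x | x <;> simp

theorem vx_inl {p a b c : ℕ} (hc : b + a = c) (i : Fin a) (x : ZMod p) :
    vx p hc (Pi.single i x, 0) = Pi.single (ix hc (Sum.inl i)) x := by
  funext k
  obtain ⟨y, rfl⟩ := (ix hc).surjective k
  show Sum.elim _ _ ((ix hc).symm (ix hc y)) = _
  rw [Equiv.symm_apply_apply]
  rcases y with y | y
  · simp [Pi.single_apply]
  · simp [Pi.single_apply]

theorem vx_inr {p a b c : ℕ} (hc : b + a = c) (j : Fin b) (x : ZMod p) :
    vx p hc (0, Pi.single j x) = Pi.single (ix hc (Sum.inr j)) x := by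
  funext k
  obtain ⟨y, rfl⟩ := (ix hc).surjective k
  show Sum.elim _ _ ((ix hc).symm (ix hc y)) = _
  rw [Equiv.symm_apply_apply]
  rcases y with y | y
  · simp [Pi.single_apply]
  · simp [Pi.single_apply]

/-- indices with one more element -/
def sx (α β : Type) : α ⊕ Option β ≃ Option (α ⊕ β) where
  toFun := Sum.elim (fun i => some (Sum.inl i)) (Option.map Sum.inr)
  invFun o := o.elim (Sum.inr none) (Sum.elim Sum.inl (fun j => Sum.inr (some j)))
  left_inv := by
    rintro (x | (_ | x)) <;> rfl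
  right_inv := by
    rintro (_ | (x | x)) <;> rfl

theorem prodD {p a n n' : ℕ} (hc : n + 1 + a = n' + 1)
    (H : Dec (Sum.elim
      (fun i : Fin a => ((Pi.single i 1, 0) : (Fin a → ZMod p) × (Fin (n + 1) → ZMod p)))
      (fun j => ((0, famD p n j) : (Fin a → ZMod p) × (Fin (n + 1) → ZMod p))))) :
    Dec (famD p n') := by
  refine dec_congr (vx p hc) ((sx (Fin a) (Fin (n + 1))).trans (Equiv.optionCongr (ix hc))) ?_ H
  rintro (x | (_ | x))
  · show famD p n' (some (ix hc (Sum.inl x))) = vx p hc (Pi.single x 1, 0)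
    rw [vx_inl]
    rfl
  · show famD p n' none = vx p hc (0, Pi.single 0 2)
    rw [vx_inr]
    have : ix hc (Sum.inr 0) = 0 := by
      apply Fin.ext
      rw [ix_inr]
      rfl
    rw [this]
    rfl
  · show famD p n' (some (ix hc (Sum.inr x))) = vx p hc (0, Pi.single x 1)
    rw [vx_inr]
    rfl

theorem prodE {p a n n' : ℕ} (hc : n + 2 + a = n' + 2)
    (H : Dec (Sum.elim
      (fun i : Fin a => ((Pi.single i 1, 0) : (Fin a → ZMod p) × (Fin (n + 2) → ZMod p)))
      (fun j => ((0, famE p n j) : (Fin a → ZMod p) × (Fin (n + 2) → ZMod p))))) :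
    Dec (famE p n') := by
  refine dec_congr (vx p hc) ((sx (Fin a) (Fin (n + 2))).trans (Equiv.optionCongr (ix hc))) ?_ H
  rintro (x | (_ | x))
  · show famE p n' (some (ix hc (Sum.inl x))) = vx p hc (Pi.single x 1, 0)
    rw [vx_inl]
    rfl
  · show famE p n' none = vx p hc (0, Pi.single 0 2 - Pi.single 1 1)
    have e : ((0, Pi.single 0 2 - Pi.single 1 1) : (Fin a → ZMod p) × (Fin (n + 2) → ZMod p)) =
        (0, Pi.single 0 2) - (0, Pi.single 1 1) := by
      rw [Prod.mk_sub_mk, sub_zero]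
    rw [e, map_sub, vx_inr, vx_inr]
    have h0 : ix hc (Sum.inr 0) = 0 := by
      apply Fin.ext
      rw [ix_inr]
      rfl
    have h1 : ix hc (Sum.inr 1) = 1 := by
      apply Fin.ext
      rw [ix_inr]
      rfl
    rw [h0, h1]
    rfl
  · show famE p n' (some (ix hc (Sum.inr x))) = vx p hc (0, Pi.single x 1)
    rw [vx_inr]
    rfl

/-- one dimension -/
theorem dec_zero {p : ℕ} (hp : p.Prime) (hp5 : 5 ≤ p) : Dec (famD p 0) := by
  haveI : NeZero p := ⟨hp.ne_zero⟩
  have key : ∀ x : ZMod p, IsUnit x →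
      Trans (fun v : Fin 1 → ZMod p => v + Pi.single 0 x) := by
    intro x hx
    refine Trans.conj (Equiv.funUnique (Fin 1) (ZMod p)) (trans_add hx) ?_
    intro v
    simp
  refine ⟨[fun v => v + Pi.single 0 2, fun v => v + Pi.single 0 1], rfl, ?_, ?_⟩
  · intro κ hκ
    simp only [List.mem_cons, List.not_mem_nil, or_false] at hκ
    rcases hκ with rfl | rfl
    · refine key 2 ?_
      have h2 : ((2 : ℕ) : ZMod p) = 2 := by norm_num
      rw [← h2, ZMod.isUnit_iff_coprime]
      exact ((Nat.coprime_primes Nat.prime_two hp).2 (by omega))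
    · exact key 1 isUnit_one
  · intro v
    have h3 : (univ : Finset (Option (Fin (0 + 1)))).val =
        (([none, some 0] : List (Option (Fin (0 + 1)))) : Multiset (Option (Fin (0 + 1)))) := rfl
    rw [h3, Multiset.map_coe]
    rfl

/-- the recursion -/
theorem rec_all (h1 : S_PP) (h2 : S_PT) (h3 : S_BE) {p : ℕ} (hp : p.Prime) (hp5 : 5 ≤ p) :
    ∀ s : ℕ, 1 ≤ s → (∃ n, s = n + 1 ∧ Dec (famD p n)) ∨ (∃ n, s = n + 2 ∧ Dec (famE p n)) := by
  intro s
  induction s using Nat.strong_induction_on with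
  | _ s ih =>
    intro hs
    rcases (by omega : s = 1 ∨ s = 2 ∨ 3 ≤ s) with rfl | rfl | hs3
    · exact Or.inl ⟨0, rfl, dec_zero hp hp5⟩
    · exact Or.inr ⟨0, rfl, h3 p hp hp5⟩
    rcases Nat.even_or_odd' s with ⟨m, hm | hm⟩
    · -- `s = 2 m`
      rcases ih (m - 1) (by omega) (by omega) with ⟨n, hn, H⟩ | ⟨n, hn, H⟩
      · refine Or.inl ⟨s - 1, by omega, ?_⟩
        refine prodD (a := m + 1) (n := n) (by omega) ?_
        exact h2 p m (n + 1) hp hp5 (by omega) (by omega) (by omega) (Fin (n + 1) → ZMod p) _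
          (famD p n) (card_pi hp _) (by rw [Fintype.card_option, Fintype.card_fin]; omega) H
      · refine Or.inr ⟨s - 2, by omega, ?_⟩
        refine prodE (a := m + 1) (n := n) (by omega) ?_
        exact h2 p m (n + 2) hp hp5 (by omega) (by omega) (by omega) (Fin (n + 2) → ZMod p) _
          (famE p n) (card_pi hp _) (by rw [Fintype.card_option, Fintype.card_fin]; omega) H
    · -- `s = 2 m + 1`
      rcases ih m (by omega) (by omega) with ⟨n, hn, H⟩ | ⟨n, hn, H⟩
      · refine Or.inl ⟨s - 1, by omega, ?_⟩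
        refine prodD (a := m + 1) (n := n) (by omega) ?_
        exact h1 p (m + 1) (n + 1) hp hp5 (by omega) (by omega) (Fin (m + 1) → ZMod p)
          (Fin (n + 1) → ZMod p) _ _ _ (famD p n) (card_pi hp _) (card_pi hp _)
          (by rw [Fintype.card_option, Fintype.card_fin, Fintype.card_fin]; omega)
          (dec_std hp hp5 (by omega)) H
      · refine Or.inr ⟨s - 2, by omega, ?_⟩
        refine prodE (a := m + 1) (n := n) (by omega) ?_
        exact h1 p (m + 1) (n + 2) hp hp5 (by omega) (by omega) (Fin (m + 1) → ZMod p)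
          (Fin (n + 2) → ZMod p) _ _ _ (famE p n) (card_pi hp _) (card_pi hp _)
          (by rw [Fintype.card_option, Fintype.card_fin, Fintype.card_fin]; omega)
          (dec_std hp hp5 (by omega)) H

theorem t_ASM : S_ASM := by
  intro h1 h2 h3 p hp hp5 n
  rcases rec_all h1 h2 h3 hp hp5 (n + 2) (by omega) with ⟨m, hm, H⟩ | ⟨m, hm, H⟩
  · left
    have : m = n + 1 := by omega
    subst this
    exact H
  · right
    have : m = n := by omega
    subst this
    exact H

end Pool.Agent.U390.EA
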